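import Mathlib
import Pool.Agent.V7H51.NR.Sym
import Pool.Agent.V7H55.ET.Main
import Pool.Agent.V7H55.FP.Defs4

set_option autoImplicit false

/-!
# The piece SM: no symbols modulo groups of small index
-/

namespace Pool.Agent.V7H33.FP

open Pool.Agent.V7H55.FP
open Pool.Agent.V7H55.ET (Adm Sym near)
open Pool.Agent.V7H55.ET2 (IsCone)
open Pool.Agent.Y920.EP (pwG)

section cone

/-- the positive elements of an ordering of a field -/
structure PC {F : Type} [Field F] (Q : F → Prop) : Prop where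
  add : ∀ x y, Q x → Q y → Q (x + y)
  mul : ∀ x y, Q x → Q y → Q (x * y)
  zero : ¬ Q 0
  one : Q 1
  total : ∀ x, Q x ∨ x = 0 ∨ Q (-x)

variable {F : Type} [Field F] {Q : F → Prop}

/-- the ordering -/
@[reducible] noncomputable def PC.ord (h : PC Q) : LinearOrder F where
  le x y := x = y ∨ Q (y - x)
  le_refl x := Or.inl rfl
  le_trans := by
    rintro x y z (h1 | h1) (h2 | h2)
    · exact Or.inl (h1.trans h2)
    · right; rw [h1]; exact h2
    · right; rw [← h2]; exact h1
    · right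
      have := h.add _ _ h1 h2
      rwa [sub_add_sub_cancel'] at this
  le_antisymm := by
    rintro x y (h1 | h1) (h2 | h2)
    · exact h1
    · exact h1
    · exact h2.symm
    · exfalso
      apply h.zero
      have := h.add _ _ h1 h2
      rwa [sub_add_sub_cancel, sub_self] at this
  le_total := by
    intro x y
    rcases h.total (y - x) with h1 | h1 | h1
    · exact Or.inl (Or.inr h1)
    · exact Or.inl (Or.inl (sub_eq_zero.1 h1).symm)
    · exact Or.inr (Or.inr (by rwa [neg_sub] at h1))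
  toDecidableLE := Classical.decRel _

lemma PC.pos_iff (h : PC Q) (x : F) :
    letI := h.ord
    0 < x ↔ Q x := by
  let _ := h.ord
  constructor
  · intro h1
    rcases (le_of_lt h1 : (0 : F) = x ∨ Q (x - 0)) with h2 | h2
    · exact absurd h2 h1.ne
    · rwa [sub_zero] at h2
  · intro h1
    refine lt_of_le_of_ne (show (0 : F) ≤ x from Or.inr (by rwa [sub_zero])) ?_
    rintro rfl
    exact h.zero h1

lemma PC.strict (h : PC Q) :
    letI := h.ord
    IsStrictOrderedRing F := by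
  let _ := h.ord
  have : IsOrderedAddMonoid F := by
    refine ⟨?_, ?_⟩
    · intro a b hab c
      rcases (hab : a = b ∨ Q (b - a)) with h1 | h1
      · rw [h1]
      · refine Or.inr ?_
        rwa [add_sub_add_right_eq_sub]
    · intro a b hab c
      rcases (hab : a = b ∨ Q (b - a)) with h1 | h1
      · rw [h1]
      · refine Or.inr ?_
        rwa [add_sub_add_left_eq_sub]
  have : ZeroLEOneClass F := ⟨((h.pos_iff 1).2 h.one).le⟩
  refine IsStrictOrderedRing.of_mul_pos ?_
  intro a b ha hb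
  rw [h.pos_iff] at ha hb ⊢
  exact h.mul _ _ ha hb

/-- a subgroup of index 2 which is closed under addition and does not contain `-1` -/
lemma isCone {T : Subgroup Fˣ} (hneg : (-1 : Fˣ) ∉ T) (hidx : T.index = 2)
    (hadd : ∀ s ∈ T, ∀ t ∈ T, ∀ v : Fˣ, (v : F) = s + t → v ∈ T) : IsCone T := by
  have hPC : PC (fun x : F => ∃ u ∈ T, (u : F) = x) := by
    refine ⟨?_, ?_, ?_, ⟨1, one_mem _, Units.val_one⟩, ?_⟩
    · rintro _ _ ⟨s, hs, rfl⟩ ⟨t, ht, rfl⟩
      have h0 : (s : F) + t ≠ 0 := by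
        intro h0
        apply hneg
        have h1 : s = -t := Units.ext (by rw [Units.val_neg]; linear_combination h0)
        have h2 : (-1 : Fˣ) = s * t⁻¹ := by rw [h1]; simp
        rw [h2]
        exact mul_mem hs (inv_mem ht)
      exact ⟨Units.mk0 _ h0, hadd s hs t ht _ rfl, rfl⟩
    · rintro _ _ ⟨s, hs, rfl⟩ ⟨t, ht, rfl⟩
      exact ⟨s * t, mul_mem hs ht, by rw [Units.val_mul]⟩
    · rintro ⟨u, -, hu⟩
      exact u.ne_zero hu
    · intro x
      by_cases hx : x = 0
      · exact Or.inr (Or.inl hx)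
      · by_cases h1 : Units.mk0 x hx ∈ T
        · exact Or.inl ⟨_, h1, rfl⟩
        · refine Or.inr (Or.inr ⟨(-1) * Units.mk0 x hx, ?_, by simp⟩)
          rw [Subgroup.mul_mem_iff_of_index_two hidx]
          exact ⟨fun h => absurd h hneg, fun h => absurd h h1⟩
  refine ⟨hPC.ord, hPC.strict, fun x => ?_⟩
  rw [hPC.pos_iff]
  constructor
  · exact fun h => ⟨x, h, rfl⟩
  · rintro ⟨u, hu, h⟩
    rwa [← Units.ext h]

end cone

/-- a nonzero symbol modulo a subgroup of index 4 gives a valuation ring -/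
lemma val4 {F : Type} [Field F] {T : Subgroup Fˣ} (hsq : ∀ x : Fˣ, x * x ∈ T)
    (hneg : (-1 : Fˣ) ∈ T) (hidx : T.index = 4) {c : Fˣ → Fˣ → ZMod 2} (hc : c ∈ Sym 2 T)
    (h0 : c ≠ 0) : ∃ O : ValuationSubring F,
      (∀ x : F, x ∈ O → x⁻¹ ∉ O → ∃ t ∈ T, (t : F) = 1 + x) ∧ O.unitGroup ⊔ T ≠ ⊤ := by
  let iG : AddCommGroup (Additive (Fˣ ⧸ T)) := inferInstance
  have hz : ∀ x : Additive (Fˣ ⧸ T), 2 • x = 0 := fun x => by
    obtain ⟨a, ha⟩ := QuotientGroup.mk_surjective (Additive.toMul x)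
    have h1 : 2 • x = Additive.ofMul ((QuotientGroup.mk a : Fˣ ⧸ T) ^ 2) := by
      rw [ha]
      rfl
    rw [h1, ofMul_eq_zero, ← QuotientGroup.mk_pow, QuotientGroup.eq_one_iff, pow_two]
    exact hsq a
  let iM : Module (ZMod 2) (Additive (Fˣ ⧸ T)) := AddCommGroup.zmodModule hz
  have hFin : Finite (Additive (Fˣ ⧸ T)) := by
    have : T.FiniteIndex := ⟨by rw [hidx]; norm_num⟩
    exact inferInstanceAs (Finite (Fˣ ⧸ T))
  have hV : Nat.card (Additive (Fˣ ⧸ T)) = 2 ^ 2 := by
    rw [show (2 : ℕ) ^ 2 = 4 by norm_num, ← hidx]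
    rfl
  have hdim : Module.finrank (ZMod 2) (Additive (Fˣ ⧸ T)) = 2 := by
    have h2 := Module.natCard_eq_pow_finrank (K := ZMod 2) (V := Additive (Fˣ ⧸ T))
    rw [Nat.card_zmod, hV] at h2
    exact (Nat.pow_right_injective le_rfl h2).symm
  obtain ⟨q, hqd⟩ : ∃ q : Fˣ → Additive (Fˣ ⧸ T), ∀ a, q a = Additive.ofMul (QuotientGroup.mk a) :=
    ⟨_, fun _ => rfl⟩
  have hq : ∀ a b, q (a * b) = q a + q b := fun a b => by
    rw [hqd, hqd, hqd]
    rfl
  have hsur : Function.Surjective q := by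
    intro x
    obtain ⟨a, ha⟩ := QuotientGroup.mk_surjective (Additive.toMul x)
    exact ⟨a, by rw [hqd]; exact congrArg Additive.ofMul ha⟩
  have hk : ∀ a, q a = 0 ↔ a ∈ T := by
    intro a
    rw [hqd, ofMul_eq_zero, QuotientGroup.eq_one_iff]
  have hsy : Pool.Agent.V7H51.NR.IsSy F T c := ⟨⟨hc.1, hc.2.1, hc.2.2.1⟩, hc.2.2.2⟩
  obtain ⟨β, hβ, hβc⟩ := Pool.Agent.V7H51.NR.exists_formT hneg hq hsur hk hsy
  have hβ0 : β ≠ 0 := by
    rintro rfl
    apply h0
    funext a b
    rw [← hβc]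
    rfl
  have h2 := Pool.Agent.N908.FR.forms_le hdim (Pool.Agent.N908.FR.Est q)
  have h3 : 1 ≤ Module.finrank (ZMod 2)
      (Pool.Agent.N908.FR.Forms (ZMod 2) (Pool.Agent.N908.FR.Est q)) := by
    have h1 : Nat.card (Pool.Agent.N908.FR.Forms (ZMod 2) (Pool.Agent.N908.FR.Est q)) =
        2 ^ Module.finrank (ZMod 2) (Pool.Agent.N908.FR.Forms (ZMod 2) (Pool.Agent.N908.FR.Est q)) := by
      let _ : AddCommGroup (Pool.Agent.N908.FR.Forms (ZMod 2) (Pool.Agent.N908.FR.Est q)) :=
        Module.addCommMonoidToAddCommGroup (ZMod 2)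
      have h0 := Module.natCard_eq_pow_finrank (K := ZMod 2)
        (V := Pool.Agent.N908.FR.Forms (ZMod 2) (Pool.Agent.N908.FR.Est q))
      rwa [Nat.card_zmod] at h0
    by_contra h4
    have h5 : Module.finrank (ZMod 2)
      (Pool.Agent.N908.FR.Forms (ZMod 2) (Pool.Agent.N908.FR.Est q)) = 0 := by omega
    rw [h5, pow_zero] at h1
    obtain ⟨h6, -⟩ := Nat.card_eq_one_iff_unique.1 h1
    have h7 := h6.elim ⟨β, hβ⟩ ⟨0, Submodule.zero_mem _⟩
    exact hβ0 (congrArg Subtype.val h7)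
  have hr : Module.finrank (ZMod 2)
      (Pool.Agent.N908.FR.Rel (k := ZMod 2) (Pool.Agent.N908.FR.Est q) ⊤) + 2 ≤
      Module.finrank (ZMod 2) (Additive (Fˣ ⧸ T)) := by
    rw [hdim]
    omega
  obtain ⟨P, hP1, hP2, -⟩ := Pool.Agent.V7H51.NR.mainT hq hsur hk hr
  obtain ⟨K, hK, O, hO1, hO2, -⟩ := Pool.Agent.V7H51.NR.val_of_part2 hsq hneg
    (by rw [hidx]; norm_num) hP1 hP2
  refine ⟨O, hO2, fun e => hP1.ne_top K hK ?_⟩
  rw [eq_top_iff, ← e]
  exact sup_le hO1 (hP1.le K hK)

theorem t_SM : S_SM := by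
  intro F _ h2 hfin T hT hadm hcone hidx c hc
  have : Fact (Nat.Prime 2) := ⟨Nat.prime_two⟩
  have hT0 : T.index ≠ 0 := by
    intro h
    apply hfin
    have h1 : T.index ∣ (pwG F 2).index := Subgroup.index_dvd_of_le hT
    rw [h] at h1
    exact Nat.eq_zero_of_zero_dvd h1
  rcases hidx with hidx | ⟨hidx, hneg⟩
  · rcases (by omega : T.index = 1 ∨ T.index = 2) with h1 | h1
    · rw [Subgroup.index_eq_one] at h1
      funext x y
      exact Sym.van hc (by rw [h1]; trivial) y
    · by_cases hneg : (-1 : Fˣ) ∈ T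
      · exact Pool.Agent.V7H55.ET2.Sym_index_p hT h1 hneg hc
      · -- the group `T` is not a cone
        have h3 : ∃ s ∈ T, ∃ t ∈ T, ∃ v : Fˣ, (v : F) = s + t ∧ v ∉ T := by
          by_contra h4
          push Not at h4
          exact hcone T (isCone hneg h1 h4) le_rfl
        obtain ⟨s, hs, t, ht, v, hv, hvT⟩ := h3
        obtain ⟨w, hw⟩ : ∃ w : Fˣ, w = s⁻¹ * v := ⟨_, rfl⟩
        obtain ⟨t', ht'⟩ : ∃ t' : Fˣ, t' = s⁻¹ * t := ⟨_, rfl⟩
        have hwT : w ∉ T := by
          intro h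
          apply hvT
          have e : v = s * w := by rw [hw, mul_inv_cancel_left]
          rw [e]
          exact mul_mem hs h
        have ht'T : t' ∈ T := by
          rw [ht']
          exact mul_mem (inv_mem hs) ht
        have hnt : -t' ∉ T := by
          intro h
          apply hneg
          have e : (-1 : Fˣ) = -t' * t'⁻¹ := by simp
          rw [e]
          exact mul_mem h (inv_mem ht'T)
        have hst : c (-t') w = 0 := by
          apply hc.2.2.1
          rw [hw, ht', Units.val_neg, Units.val_mul, Units.val_mul, hv, mul_add,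
            Units.inv_mul]
          ring
        funext x y
        change c x y = 0
        by_cases hx : x ∈ T
        · exact Sym.van hc hx y
        by_cases hy : y ∈ T
        · exact Pool.Agent.V7H55.ET2.van_right' hc hy x
        rw [← hst]
        refine (Pool.Agent.V7H55.ET2.congr' hc ?_ ?_).symm
        · rw [Subgroup.mul_mem_iff_of_index_two h1, inv_mem_iff]
          exact ⟨fun h => absurd h hx, fun h => absurd h hnt⟩
        · rw [Subgroup.mul_mem_iff_of_index_two h1, inv_mem_iff]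
          exact ⟨fun h => absurd h hy, fun h => absurd h hwT⟩
  · by_contra h0
    have hsq : ∀ x : Fˣ, x * x ∈ T := fun x => hT ⟨x, by simp [sq]⟩
    obtain ⟨O, hO1, hO2⟩ := val4 hsq hneg hidx hc h0
    have hgd : Pool.Agent.V7H55.ET.Gd 2 T :=
      Pool.Agent.V7H55.ET.coarsen Nat.prime_two (by exact_mod_cast h2) hfin hT
        (by rw [hidx]; norm_num) O hO1 hO2
    obtain ⟨O', hO', -⟩ := Pool.Agent.V7H55.ET.Gd.adm (B := T) le_rfl hgd
    exact hadm O' hO'

end Pool.Agent.V7H33.FP
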